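import Mathlib

/-!
# The record random harmonic series has a bounded density

Let `Y = ∑_{n ≥ 2} Iₙ / n` and `g z = P (z ≤ Y ≤ z + h)`. Size biasing gives
`z g z ≤ ∑_{n ≥ 2} g (z - 1 / n) / (n (n - 1))` for `z ≥ 0`. The weights `1 / (n (n - 1))` with
`1 / n ≤ r` sum up to at most `r / (1 - r) = r + O (r ^ 2)`, and this makes the supremum of `g`
over `(-∞, 2 y)` at most `1 + O (h / y + y)` times the supremum over `(-∞, y)`. The product of
these factors over `y = h, 2 h, 4 h, …, 1 / 8` is bounded, and `g ≤ 4 h` on `(-∞, h)`.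
-/

open MeasureTheory ProbabilityTheory Set
open scoped ENNReal NNReal

namespace Pool.Agent.Results.MP_5a22fd_pr.BoundedDensity

/-- The sequence `I` is a sequence of independent indicators, `I n` standing for the variable
`I_{n + 1}` of the problem, so that `P (I n = 1) = 1 / (n + 1)`. -/
structure RecordIndicators {Ω : Type*} [MeasurableSpace Ω] (P : Measure Ω) (I : ℕ → Ω → ℝ) :
    Prop where
  measurable : ∀ n, Measurable (I n)
  indep : iIndepFun I P
  zero_or_one : ∀ n, ∀ᵐ ω ∂P, I n ω = 0 ∨ I n ω = 1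
  prob_one : ∀ n : ℕ, P {ω | I n ω = 1} = ENNReal.ofReal (1 / (n + 1))

/-- The sum of the record random harmonic series. -/
noncomputable def recordSum {Ω : Type*} (I : ℕ → Ω → ℝ) (ω : Ω) : ℝ :=
  ∑' n : ℕ, I n ω / (n + 1)

/-! ### The analytic part -/

/-- The weights of the size bias inequality. -/
noncomputable def a (k : ℕ) : ℝ := 1 / (((k : ℝ) + 1) * (k + 2))

lemma a_nonneg (k : ℕ) : 0 ≤ a k := by unfold a; positivity

lemma a_eq (k : ℕ) : a k = 1 / ((k : ℝ) + 1) - 1 / ((k : ℝ) + 2) := by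
  unfold a
  field_simp
  ring

lemma sum_tail_le {r : ℝ} (hr1 : r < 1) (s : ℕ) :
    ∑ k ∈ Finset.range s, (if 1 / ((k : ℝ) + 2) ≤ r then a k else 0) ≤ max (r / (1 - r)) 0 := by
  set ρ := r / (1 - r) with hρ
  have h1 : ∀ k : ℕ, (if 1 / ((k : ℝ) + 2) ≤ r then a k else 0) ≤
      min (1 / ((k : ℝ) + 1)) (max ρ 0) - min (1 / (((k + 1 : ℕ) : ℝ) + 1)) (max ρ 0) := by
    intro k
    have h2 : (((k + 1 : ℕ) : ℝ) + 1) = (k : ℝ) + 2 := by push_cast; ring
    rw [h2]
    have h3 : 1 / ((k : ℝ) + 2) ≤ 1 / ((k : ℝ) + 1) :=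
      one_div_le_one_div_of_le (by positivity) (by linarith)
    split_ifs with h
    · have hr0 : 0 < r := lt_of_lt_of_le (by positivity) h
      have h4 : 1 / ((k : ℝ) + 1) ≤ ρ := by
        rw [hρ, div_le_div_iff₀ (by positivity) (by linarith)]
        rw [div_le_iff₀ (by positivity)] at h
        nlinarith
      have h5 : 1 / ((k : ℝ) + 1) ≤ max ρ 0 := le_max_of_le_left h4
      rw [min_eq_left h5, min_eq_left (h3.trans h5), a_eq]
    · have := min_le_min_right (max ρ 0) h3
      linarith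
  calc ∑ k ∈ Finset.range s, (if 1 / ((k : ℝ) + 2) ≤ r then a k else 0)
      ≤ ∑ k ∈ Finset.range s, (min (1 / ((k : ℝ) + 1)) (max ρ 0) -
          min (1 / (((k + 1 : ℕ) : ℝ) + 1)) (max ρ 0)) := Finset.sum_le_sum fun k _ => h1 k
    _ = min (1 / (((0 : ℕ) : ℝ) + 1)) (max ρ 0) - min (1 / ((s : ℝ) + 1)) (max ρ 0) :=
        Finset.sum_range_sub' (fun k : ℕ => min (1 / ((k : ℝ) + 1)) (max ρ 0)) s
    _ ≤ max ρ 0 := by
        have h6 : 0 ≤ min (1 / ((s : ℝ) + 1)) (max ρ 0) :=
          le_min (by positivity) (le_max_right _ _)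
        have h7 := min_le_right (1 / (((0 : ℕ) : ℝ) + 1)) (max ρ 0)
        linarith

lemma sum_a_le (s : ℕ) : ∑ k ∈ Finset.range s, a k ≤ 1 := by
  have h1 : ∀ k : ℕ, a k = 1 / ((k : ℝ) + 1) - 1 / (((k + 1 : ℕ) : ℝ) + 1) := by
    intro k
    rw [a_eq]
    push_cast
    ring_nf
  rw [Finset.sum_congr rfl fun k _ => h1 k,
    Finset.sum_range_sub' (fun k : ℕ => 1 / ((k : ℝ) + 1)) s]
  have : 0 ≤ 1 / ((s : ℝ) + 1) := by positivity
  simp only [Nat.cast_zero, zero_add, div_one]
  linarith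

lemma summable_a : Summable a :=
  summable_of_sum_range_le a_nonneg sum_a_le

lemma contraction {S : Set ℝ} {f : ℝ → ℝ} {M q c : ℝ} (hq0 : 0 ≤ q) (hq : q < 1) (hc : 0 ≤ c)
    (hM : ∀ w ∈ S, f w ≤ M)
    (step : ∀ D, 0 ≤ D → (∀ w ∈ S, f w ≤ D) → ∀ w ∈ S, f w ≤ q * D + c) :
    ∀ w ∈ S, f w ≤ c / (1 - q) := by
  intro w hw
  have hne : (f '' S).Nonempty := ⟨f w, w, hw, rfl⟩
  have hbdd : BddAbove (f '' S) := ⟨M, by rintro _ ⟨v, hv, rfl⟩; exact hM v hv⟩
  set D := max (sSup (f '' S)) 0 with hD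
  have h0 : 0 ≤ D := le_max_right _ _
  have h1 : ∀ v ∈ S, f v ≤ D := fun v hv => le_max_of_le_left (le_csSup hbdd ⟨v, hv, rfl⟩)
  have h2 := step D h0 h1
  have h3 : sSup (f '' S) ≤ q * D + c := by
    apply csSup_le hne
    rintro _ ⟨v, hv, rfl⟩
    exact h2 v hv
  have h4 : D ≤ q * D + c := by
    rw [hD]
    refine max_le h3 ?_
    positivity
  have h5 : D ≤ c / (1 - q) := by
    rw [le_div_iff₀ (by linarith)]
    linarith
  exact (h1 w hw).trans h5

/-- The hypotheses on `g z = P (z ≤ Y ≤ z + h)` used in the analytic part. -/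
structure SizeBias (g : ℝ → ℝ) (h : ℝ) : Prop where
  nonneg : ∀ z, 0 ≤ g z
  le_one : ∀ z, g z ≤ 1
  eq_zero : ∀ z, z < -h → g z = 0
  bias : ∀ z, 0 ≤ z → z * g z ≤ ∑' k : ℕ, a k * g (z - 1 / ((k : ℝ) + 2))
  small : ∀ z, z < h → g z ≤ 4 * h

section

variable {g : ℝ → ℝ} {h : ℝ}

lemma SizeBias.summable (hg : SizeBias g h) (z : ℝ) :
    Summable fun k : ℕ => a k * g (z - 1 / ((k : ℝ) + 2)) :=
  Summable.of_nonneg_of_le (fun k => mul_nonneg (a_nonneg k) (hg.nonneg _))
    (fun k => mul_le_of_le_one_right (a_nonneg k) (hg.le_one _)) summable_a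

/-- The basic inequality: one step of the contraction. -/
lemma SizeBias.step (hg : SizeBias g h) {y s D z : ℝ} (hs0 : 0 ≤ s)
    (hs : ∀ w, w < y → g w ≤ s) (hzy : y ≤ z) (hy0 : 0 ≤ y) (hzh : z + h < 1) (hD : 0 ≤ D)
    (hz : ∀ w, w ≤ z → g w ≤ s + D) (hh : 0 < h) :
    z * g z ≤ s * ((z + h) / (1 - (z + h))) + D * ((z - y) / (1 - (z - y))) := by
  refine (hg.bias z (hy0.trans hzy)).trans ?_
  have hzy' : z - y < 1 := by linarith
  refine Real.tsum_le_of_sum_range_le (fun k => mul_nonneg (a_nonneg k) (hg.nonneg _)) fun n => ?_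
  have h1 : ∀ k : ℕ, a k * g (z - 1 / ((k : ℝ) + 2)) ≤
      s * (if 1 / ((k : ℝ) + 2) ≤ z + h then a k else 0) +
      D * (if 1 / ((k : ℝ) + 2) ≤ z - y then a k else 0) := by
    intro k
    have hk : (0 : ℝ) < 1 / ((k : ℝ) + 2) := by positivity
    by_cases h2 : 1 / ((k : ℝ) + 2) ≤ z + h
    · rw [if_pos h2]
      by_cases h3 : 1 / ((k : ℝ) + 2) ≤ z - y
      · rw [if_pos h3]
        have := mul_le_mul_of_nonneg_left (hz (z - 1 / ((k : ℝ) + 2)) (by linarith)) (a_nonneg k)
        linarith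
      · rw [if_neg h3]
        have := mul_le_mul_of_nonneg_left (hs (z - 1 / ((k : ℝ) + 2)) (by linarith)) (a_nonneg k)
        linarith
    · rw [hg.eq_zero _ (by linarith), mul_zero]
      have h4 := a_nonneg k
      refine add_nonneg (mul_nonneg hs0 ?_) (mul_nonneg hD ?_) <;> split_ifs <;> simp [h4]
  calc ∑ k ∈ Finset.range n, a k * g (z - 1 / ((k : ℝ) + 2))
      ≤ ∑ k ∈ Finset.range n, (s * (if 1 / ((k : ℝ) + 2) ≤ z + h then a k else 0) +
        D * (if 1 / ((k : ℝ) + 2) ≤ z - y then a k else 0)) := Finset.sum_le_sum fun k _ => h1 k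
    _ = s * ∑ k ∈ Finset.range n, (if 1 / ((k : ℝ) + 2) ≤ z + h then a k else 0) +
        D * ∑ k ∈ Finset.range n, (if 1 / ((k : ℝ) + 2) ≤ z - y then a k else 0) := by
        rw [Finset.sum_add_distrib, Finset.mul_sum, Finset.mul_sum]
    _ ≤ s * ((z + h) / (1 - (z + h))) + D * ((z - y) / (1 - (z - y))) := by
        have h5 := sum_tail_le hzh n
        have h6 := sum_tail_le hzy' n
        rw [max_eq_left (div_nonneg (by linarith) (by linarith))] at h5 h6
        exact add_le_add (mul_le_mul_of_nonneg_left h5 hs0) (mul_le_mul_of_nonneg_left h6 hD)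

/-- Doubling. -/
lemma SizeBias.double (hg : SizeBias g h) (hh : 0 < h) {y s : ℝ} (hs0 : 0 ≤ s)
    (hs : ∀ w, w < y → g w ≤ s) (hhy : h ≤ y) (hy : y ≤ 1 / 8) :
    ∀ w, w < 2 * y → g w ≤ s * (1 + 3 * (h / y) + 54 * y) := by
  have hy0 : 0 < y := hh.trans_le hhy
  have key : ∀ w ∈ Set.Ico y (2 * y), g w - s ≤ (s * (h / y + 18 * y)) / (1 - 5 / 8) := by
    refine contraction (M := 1 - s) (by norm_num) (by norm_num) (by positivity) ?_ ?_
    · intro w _
      have := hg.le_one w
      linarith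
    · intro D hD hb z hz
      have hb' : ∀ w, w ≤ z → g w ≤ s + D := by
        intro w hw
        rcases lt_or_ge w y with h1 | h1
        · have := hs w h1
          linarith
        · have := hb w ⟨h1, lt_of_le_of_lt hw hz.2⟩
          linarith
      have hz1 : y ≤ z := hz.1
      have hz2 : z < 2 * y := hz.2
      have hzpos : 0 < z := hy0.trans_le hz1
      have h2 := hg.step hs0 hs hz1 hy0.le (by linarith) hD hb' hh
      have h3 : (z + h) / (1 - (z + h)) ≤ (z + h) + 2 * (z + h) ^ 2 := by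
        rw [div_le_iff₀ (by linarith)]
        nlinarith [mul_pos (by linarith : 0 < z + h) (by linarith : 0 < z + h)]
      have h3' : (z + h) + 2 * (z + h) ^ 2 ≤ z + h + 18 * y ^ 2 := by nlinarith
      have h4 : (z - y) / (1 - (z - y)) ≤ 5 / 8 * z := by
        rw [div_le_iff₀ (by linarith)]
        nlinarith
      have h5 : z * g z ≤ s * (z + h + 18 * y ^ 2) + D * (5 / 8 * z) :=
        h2.trans (add_le_add (mul_le_mul_of_nonneg_left (h3.trans h3') hs0)
          (mul_le_mul_of_nonneg_left h4 hD))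
      have h6 : h ≤ z * (h / y) := by
        rw [mul_div_assoc', le_div_iff₀ hy0]
        nlinarith
      have h7 : z * g z ≤ z * (s + s * (h / y + 18 * y) + 5 / 8 * D) := by
        have h8 : s * h ≤ s * (z * (h / y)) := mul_le_mul_of_nonneg_left h6 hs0
        have h9 : s * (18 * y ^ 2) ≤ s * (18 * y * z) :=
          mul_le_mul_of_nonneg_left (by nlinarith) hs0
        nlinarith
      have h10 := le_of_mul_le_mul_left h7 hzpos
      linarith
  intro w hw
  rcases lt_or_ge w y with h1 | h1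
  · refine (hs w h1).trans ?_
    have : 0 ≤ s * (3 * (h / y) + 54 * y) := by positivity
    linarith
  · have h2 := key w ⟨h1, hw⟩
    have h3 : (s * (h / y + 18 * y)) / (1 - 5 / 8) ≤ s * (3 * (h / y) + 54 * y) := by
      have h4 : 0 ≤ s * (h / y + 18 * y) := by positivity
      rw [div_le_iff₀ (by norm_num)]
      nlinarith
    linarith

/-- The bound up to `1 / 8`. -/
lemma SizeBias.dyadic (hg : SizeBias g h) (hh : 0 < h) (j : ℕ) :
    2 ^ j * h ≤ 1 / 4 → ∀ w, w < 2 ^ j * h → g w ≤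
      4 * h * Real.exp (∑ i ∈ Finset.range j, (3 * (1 / 2) ^ i + 54 * (2 ^ i * h))) := by
  induction j with
  | zero =>
    intro _ w hw
    simpa using hg.small w (by simpa using hw)
  | succ j ih =>
    intro hj w hw
    have h1 : 2 ^ j * h ≤ 1 / 8 := by
      rw [pow_succ] at hj
      linarith
    have h2 := ih (by linarith)
    have h3 := hg.double hh (by positivity) h2
      (by
        have : (1 : ℝ) ≤ 2 ^ j := one_le_pow₀ (by norm_num)
        nlinarith) h1 w (by
        rw [pow_succ] at hw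
        linarith)
    refine h3.trans ?_
    have h4 : h / (2 ^ j * h) = (1 / 2) ^ j := by
      rw [one_div, inv_pow]
      field_simp
    have h5 := Real.add_one_le_exp (3 * (1 / 2 : ℝ) ^ j + 54 * (2 ^ j * h))
    rw [Finset.sum_range_succ, Real.exp_add, h4]
    set E := Real.exp (∑ i ∈ Finset.range j, (3 * (1 / 2 : ℝ) ^ i + 54 * (2 ^ i * h)))
    have h6 : 0 ≤ 4 * h * E := by positivity
    have h7 := mul_le_mul_of_nonneg_left (show 1 + 3 * (1 / 2 : ℝ) ^ j + 54 * (2 ^ j * h) ≤
      Real.exp (3 * (1 / 2 : ℝ) ^ j + 54 * (2 ^ j * h)) by linarith) h6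
    linarith

lemma sum_le (j : ℕ) (hh : 0 < h) (hj : 2 ^ j * h ≤ 1 / 4) :
    ∑ i ∈ Finset.range j, (3 * (1 / 2 : ℝ) ^ i + 54 * (2 ^ i * h)) ≤ 20 := by
  have h1 : ∀ n : ℕ, ∑ i ∈ Finset.range n, (3 * (1 / 2 : ℝ) ^ i + 54 * (2 ^ i * h)) =
      6 * (1 - (1 / 2) ^ n) + 54 * h * (2 ^ n - 1) := by
    intro n
    induction n with
    | zero => simp
    | succ n ih => rw [Finset.sum_range_succ, ih]; ring
  rw [h1]
  have h2 : (0 : ℝ) < (1 / 2) ^ j := by positivity
  nlinarith

/-- One step beyond `1 / 8`. -/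
lemma SizeBias.next (hg : SizeBias g h) {y s : ℝ} (hs0 : 0 ≤ s)
    (hs : ∀ w, w < y → g w ≤ s) (hy : 1 / 8 ≤ y) :
    ∀ w, w < y + 1 / 16 → g w ≤ 20 * s := by
  have key : ∀ w ∈ Set.Ico y (y + 1 / 16), g w - s ≤ (8 * s) / (1 - 8 / 15) := by
    refine contraction (M := 1 - s) (by norm_num) (by norm_num) (by positivity) ?_ ?_
    · intro w _
      have := hg.le_one w
      linarith
    · intro D hD hb z hz
      have hz1 : y ≤ z := hz.1
      have hz2 : z < y + 1 / 16 := hz.2
      have hzpos : 0 < z := by linarith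
      have h1 : z * g z ≤ s + D * (1 / 15) := by
        refine (hg.bias z hzpos.le).trans ?_
        refine Real.tsum_le_of_sum_range_le
          (fun k => mul_nonneg (a_nonneg k) (hg.nonneg _)) fun n => ?_
        have h2 : ∀ k : ℕ, a k * g (z - 1 / ((k : ℝ) + 2)) ≤
            s * a k + D * (if 1 / ((k : ℝ) + 2) ≤ z - y then a k else 0) := by
          intro k
          have hk : (0 : ℝ) < 1 / ((k : ℝ) + 2) := by positivity
          by_cases h3 : 1 / ((k : ℝ) + 2) ≤ z - y
          · rw [if_pos h3]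
            have h4 : g (z - 1 / ((k : ℝ) + 2)) ≤ s + D := by
              rcases lt_or_ge (z - 1 / ((k : ℝ) + 2)) y with h5 | h5
              · have := hs _ h5
                linarith
              · have := hb (z - 1 / ((k : ℝ) + 2)) ⟨h5, by linarith⟩
                linarith
            have := mul_le_mul_of_nonneg_left h4 (a_nonneg k)
            linarith
          · rw [if_neg h3]
            have := mul_le_mul_of_nonneg_left (hs (z - 1 / ((k : ℝ) + 2)) (by linarith))
              (a_nonneg k)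
            linarith
        calc ∑ k ∈ Finset.range n, a k * g (z - 1 / ((k : ℝ) + 2))
            ≤ ∑ k ∈ Finset.range n, (s * a k +
              D * (if 1 / ((k : ℝ) + 2) ≤ z - y then a k else 0)) :=
              Finset.sum_le_sum fun k _ => h2 k
          _ = s * ∑ k ∈ Finset.range n, a k +
              D * ∑ k ∈ Finset.range n, (if 1 / ((k : ℝ) + 2) ≤ z - y then a k else 0) := by
              rw [Finset.sum_add_distrib, Finset.mul_sum, Finset.mul_sum]
          _ ≤ s * 1 + D * (1 / 15) := by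
              refine add_le_add (mul_le_mul_of_nonneg_left (sum_a_le n) hs0)
                (mul_le_mul_of_nonneg_left ?_ hD)
              refine (sum_tail_le (by linarith) n).trans (max_le ?_ (by norm_num))
              rw [div_le_iff₀ (by linarith)]
              linarith
          _ = s + D * (1 / 15) := by ring
      have h6 : z * g z ≤ z * (s + 8 * s + 8 / 15 * D) := by nlinarith
      have h7 := le_of_mul_le_mul_left h6 hzpos
      linarith
  intro w hw
  rcases lt_or_ge w y with h1 | h1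
  · have := hs w h1
    linarith
  · have h2 := key w ⟨h1, hw⟩
    have h3 : (8 * s) / (1 - 8 / 15) ≤ 19 * s := by
      rw [div_le_iff₀ (by norm_num)]
      nlinarith
    linarith

lemma SizeBias.many (hg : SizeBias g h) {y s : ℝ} (hs0 : 0 ≤ s)
    (hs : ∀ w, w < y → g w ≤ s) (hy : 1 / 8 ≤ y) (n : ℕ) :
    ∀ w, w < y + n / 16 → g w ≤ 20 ^ n * s := by
  induction n with
  | zero =>
    intro w hw
    simpa using hs w (by simpa using hw)
  | succ n ih =>
    intro w hw
    have h1 := hg.next (by positivity) ih (by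
      have : (0 : ℝ) ≤ (n : ℝ) / 16 := by positivity
      linarith) w (by push_cast at hw; linarith)
    rw [pow_succ]
    linarith

lemma SizeBias.all (hg : SizeBias g h) {s : ℝ} (hs0 : 0 ≤ s)
    (hs : ∀ w, w < 2 → g w ≤ s) (w : ℝ) : g w ≤ s := by
  have key : ∀ w ∈ Set.Ici (2 : ℝ), g w - s ≤ 0 / (1 - 1 / 2) := by
    refine contraction (M := 1 - s) (by norm_num) (by norm_num) le_rfl ?_ ?_
    · intro w _
      have := hg.le_one w
      linarith
    · intro D hD hb z hz
      have hz1 : 2 ≤ z := hz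
      have hb' : ∀ w, g w ≤ s + D := by
        intro w
        rcases lt_or_ge w 2 with h1 | h1
        · have := hs w h1
          linarith
        · have := hb w h1
          linarith
      have h1 : z * g z ≤ s + D := by
        refine (hg.bias z (by linarith)).trans ?_
        refine Real.tsum_le_of_sum_range_le
          (fun k => mul_nonneg (a_nonneg k) (hg.nonneg _)) fun n => ?_
        calc ∑ k ∈ Finset.range n, a k * g (z - 1 / ((k : ℝ) + 2))
            ≤ ∑ k ∈ Finset.range n, a k * (s + D) :=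
              Finset.sum_le_sum fun k _ => mul_le_mul_of_nonneg_left (hb' _) (a_nonneg k)
          _ = (∑ k ∈ Finset.range n, a k) * (s + D) := by rw [Finset.sum_mul]
          _ ≤ 1 * (s + D) := mul_le_mul_of_nonneg_right (sum_a_le n) (by linarith)
          _ = s + D := one_mul _
      have h2 : 2 * g z ≤ z * g z := mul_le_mul_of_nonneg_right hz1 (hg.nonneg z)
      linarith
  rcases lt_or_ge w 2 with h1 | h1
  · exact hs w h1
  · have := key w h1
    simp only [zero_div] at this
    linarith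

/-- The constant. -/
noncomputable def K : ℝ := 20 ^ 30 * (4 * Real.exp 20)

lemma K_pos : 0 < K := by unfold K; positivity

/-- The analytic part of the proof. -/
lemma SizeBias.bound (hg : SizeBias g h) (hh : 0 < h) (hh8 : h ≤ 1 / 8) (w : ℝ) :
    g w ≤ K * h := by
  obtain ⟨j, hj1, hj2⟩ := exists_nat_pow_near (x := 1 / (4 * h)) (y := (2 : ℝ))
    (by rw [le_div_iff₀ (by positivity)]; linarith) (by norm_num)
  rw [le_div_iff₀ (by positivity)] at hj1
  rw [div_lt_iff₀ (by positivity), pow_succ] at hj2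
  have h1 : 2 ^ j * h ≤ 1 / 4 := by linarith
  have h2 : ∀ w, w < 2 ^ j * h → g w ≤ 4 * Real.exp 20 * h := by
    intro w hw
    refine (hg.dyadic hh j h1 w hw).trans ?_
    have h3 := Real.exp_le_exp.2 (sum_le j hh h1)
    nlinarith
  have h4 := hg.many (by positivity) h2 (by linarith) 30
  have h5 := hg.all (by positivity) (s := 20 ^ 30 * (4 * Real.exp 20 * h))
    (fun w hw => h4 w (by norm_num; linarith)) w
  unfold K
  linarith

end

/-! ### The probabilistic part -/

/-- The terms `x k = I_{k + 2} / (k + 2)`. -/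
structure Terms {Ω : Type*} [MeasurableSpace Ω] (P : Measure Ω) (x : ℕ → Ω → ℝ) : Prop where
  measurable : ∀ k, Measurable (x k)
  indep : iIndepFun x P
  values : ∀ k ω, x k ω = 0 ∨ x k ω = 1 / ((k : ℝ) + 2)
  prob : ∀ k : ℕ, P (x k ⁻¹' {1 / ((k : ℝ) + 2)}) = ENNReal.ofReal (1 / ((k : ℝ) + 2))

/-- The sum of all terms. -/
noncomputable def Y {Ω : Type*} (x : ℕ → Ω → ℝ) (ω : Ω) : ℝ := ∑' k, x k ω

/-- The sum of all terms but one. -/
noncomputable def Yc {Ω : Type*} (x : ℕ → Ω → ℝ) (k : ℕ) (ω : Ω) : ℝ :=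
  ∑' j, if j = k then 0 else x j ω

lemma measurable_tsum_real {Ω : Type*} {m : MeasurableSpace Ω} {f : ℕ → Ω → ℝ}
    (hf : ∀ k, Measurable (f k)) (h0 : ∀ k ω, 0 ≤ f k ω) : Measurable fun ω => ∑' k, f k ω := by
  have h1 : (fun ω => ∑' k, f k ω) = fun ω => (∑' k, ENNReal.ofReal (f k ω)).toReal := by
    funext ω
    rw [ENNReal.tsum_toReal_eq fun _ => ENNReal.ofReal_ne_top]
    exact tsum_congr fun k => (ENNReal.toReal_ofReal (h0 k ω)).symm
  rw [h1]
  exact (Measurable.tsum fun k => (hf k).ennreal_ofReal).ennreal_toReal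

section Prob

variable {Ω : Type*} [MeasurableSpace Ω] {P : Measure Ω} {x : ℕ → Ω → ℝ}

lemma Terms.nonneg (hx : Terms P x) (k : ℕ) (ω : Ω) : 0 ≤ x k ω := by
  rcases hx.values k ω with h | h
  · exact h.ge
  · rw [h]; positivity

lemma Terms.measurable_Y (hx : Terms P x) : Measurable (Y x) :=
  measurable_tsum_real hx.measurable hx.nonneg

lemma Terms.measurable_Yc (hx : Terms P x) (k : ℕ) : Measurable (Yc x k) := by
  refine measurable_tsum_real (fun j => ?_) fun j ω => ?_
  · by_cases h : j = k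
    · simp [h]
    · simpa [h] using hx.measurable j
  · split_ifs
    · exact le_rfl
    · exact hx.nonneg j ω

lemma Terms.ofReal_eq (hx : Terms P x) (k : ℕ) (ω : Ω) : ENNReal.ofReal (x k ω) =
    (x k ⁻¹' {1 / ((k : ℝ) + 2)}).indicator (fun _ => ENNReal.ofReal (1 / ((k : ℝ) + 2))) ω := by
  have h0 : (0 : ℝ) < 1 / ((k : ℝ) + 2) := by positivity
  rcases hx.values k ω with h | h
  · rw [Set.indicator_of_notMem, h, ENNReal.ofReal_zero]
    simp only [Set.mem_preimage, Set.mem_singleton_iff, h]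
    exact h0.ne
  · rw [Set.indicator_of_mem, h]
    simp only [Set.mem_preimage, Set.mem_singleton_iff, h]

lemma Terms.setLIntegral (hx : Terms P x) (k : ℕ) (A : Set Ω) :
    ∫⁻ ω in A, ENNReal.ofReal (x k ω) ∂P =
      ENNReal.ofReal (1 / ((k : ℝ) + 2)) * P (x k ⁻¹' {1 / ((k : ℝ) + 2)} ∩ A) := by
  have hm : MeasurableSet (x k ⁻¹' {1 / ((k : ℝ) + 2)}) :=
    hx.measurable k (measurableSet_singleton _)
  rw [lintegral_congr (hx.ofReal_eq k), lintegral_indicator_const hm, Measure.restrict_apply hm]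

lemma Terms.ae_summable [IsProbabilityMeasure P] (hx : Terms P x) :
    ∀ᵐ ω ∂P, Summable fun k => x k ω := by
  have h1 : ∫⁻ ω, ∑' k, ENNReal.ofReal (x k ω) ∂P ≠ ⊤ := by
    rw [lintegral_tsum fun k => (hx.measurable k).ennreal_ofReal.aemeasurable]
    have h2 : ∀ k : ℕ, ∫⁻ ω, ENNReal.ofReal (x k ω) ∂P ≤
        ENNReal.ofReal (a k) := by
      intro k
      rw [← setLIntegral_univ, hx.setLIntegral, Set.inter_univ, hx.prob,
        ← ENNReal.ofReal_mul (by positivity)]
      apply ENNReal.ofReal_le_ofReal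
      unfold a
      rw [div_mul_div_comm, one_mul]
      exact one_div_le_one_div_of_le (by positivity) (by nlinarith [Nat.cast_nonneg (α := ℝ) k])
    refine ne_top_of_le_ne_top ?_ (ENNReal.tsum_le_tsum h2)
    rw [← ENNReal.ofReal_tsum_of_nonneg a_nonneg summable_a]
    exact ENNReal.ofReal_ne_top
  have h3 := ae_lt_top (Measurable.tsum fun k => (hx.measurable k).ennreal_ofReal) h1
  filter_upwards [h3] with ω hω
  have h4 := ENNReal.summable_toReal hω.ne
  refine h4.congr fun k => ?_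
  rw [ENNReal.toReal_ofReal (hx.nonneg k ω)]

lemma Terms.split [IsProbabilityMeasure P] (hx : Terms P x) (k : ℕ) :
    ∀ᵐ ω ∂P, Y x ω = x k ω + Yc x k ω := by
  filter_upwards [hx.ae_summable] with ω hω
  exact hω.tsum_eq_add_tsum_ite k

lemma Terms.indepFun (hx : Terms P x) (k : ℕ) : IndepFun (x k) (Yc x k) P := by
  have h1 : iIndep (fun i : ℕ => MeasurableSpace.comap (x i) inferInstance) P := hx.indep
  have h2 := indep_iSup_of_disjoint (fun i => (hx.measurable i).comap_le) h1
    (disjoint_compl_right (a := ({k} : Set ℕ)))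
  have h3 : ∀ (S : Set ℕ) (i : ℕ), i ∈ S →
      Measurable[⨆ j ∈ S, MeasurableSpace.comap (x j) inferInstance] (x i) := by
    intro S i hi
    exact Measurable.of_comap_le (le_iSup₂ (f := fun (j : ℕ) (_ : j ∈ S) =>
        MeasurableSpace.comap (x j) inferInstance) i hi)
  have h4 : Measurable[⨆ j ∈ ({k}ᶜ : Set ℕ), MeasurableSpace.comap (x j) inferInstance]
      (Yc x k) := by
    refine measurable_tsum_real (fun j => ?_) fun j ω => ?_
    · by_cases h : j = k
      · simp [h]
      · simpa [h] using h3 ({k}ᶜ) j (by simpa using h)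
    · split_ifs
      · exact le_rfl
      · exact hx.nonneg j ω
  exact indep_of_indep_of_le_left (indep_of_indep_of_le_right h2 h4.comap_le)
    (h3 {k} k rfl).comap_le

/-- The key estimate for one index. -/
lemma Terms.key [IsProbabilityMeasure P] (hx : Terms P x) (k : ℕ) {B : Set ℝ}
    (hB : MeasurableSet B) :
    P (x k ⁻¹' {1 / ((k : ℝ) + 2)} ∩ Yc x k ⁻¹' B) ≤
      ENNReal.ofReal (1 / ((k : ℝ) + 1) * P.real (Y x ⁻¹' B)) := by
  have hs : MeasurableSet ({1 / ((k : ℝ) + 2)} : Set ℝ) := measurableSet_singleton _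
  have hE : MeasurableSet (x k ⁻¹' {1 / ((k : ℝ) + 2)}) := hx.measurable k hs
  have h1 := (hx.indepFun k).measure_inter_preimage_eq_mul _ _ hs hB
  have h2 := (hx.indepFun k).measure_inter_preimage_eq_mul _ _ hs.compl hB
  have h3 : P (x k ⁻¹' {1 / ((k : ℝ) + 2)}ᶜ ∩ Yc x k ⁻¹' B) ≤ P (Y x ⁻¹' B) := by
    refine measure_mono_ae ?_
    filter_upwards [hx.split k] with ω hω
    rintro ⟨h4, h5⟩
    have h6 : x k ω = 0 := by
      rcases hx.values k ω with h | h
      · exact h
      · exact absurd h h4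
    change Y x ω ∈ B
    rw [hω, h6, zero_add]
    exact h5
  have h7 : P.real (x k ⁻¹' {1 / ((k : ℝ) + 2)}) = 1 / ((k : ℝ) + 2) := by
    rw [measureReal_def, hx.prob, ENNReal.toReal_ofReal (by positivity)]
  have h8 : P.real (x k ⁻¹' {1 / ((k : ℝ) + 2)}ᶜ) = 1 - 1 / ((k : ℝ) + 2) := by
    rw [Set.preimage_compl, probReal_compl_eq_one_sub hE, h7]
  have h9 : (1 - 1 / ((k : ℝ) + 2)) * P.real (Yc x k ⁻¹' B) ≤ P.real (Y x ⁻¹' B) := by
    have := ENNReal.toReal_mono (measure_ne_top _ _) h3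
    rw [h2, ENNReal.toReal_mul] at this
    rw [← h8]
    exact this
  rw [h1, ← ENNReal.ofReal_toReal (measure_ne_top P (Yc x k ⁻¹' B)), hx.prob,
    ← ENNReal.ofReal_mul (by positivity)]
  apply ENNReal.ofReal_le_ofReal
  have h10 : (P (Yc x k ⁻¹' B)).toReal = P.real (Yc x k ⁻¹' B) := rfl
  rw [h10]
  have hk1 : (0 : ℝ) < (k : ℝ) + 1 := by positivity
  have hk2 : (0 : ℝ) < (k : ℝ) + 2 := by positivity
  have h11 : 1 - 1 / ((k : ℝ) + 2) = ((k : ℝ) + 1) / ((k : ℝ) + 2) := by
    field_simp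
    ring
  rw [h11] at h9
  have h12 := mul_le_mul_of_nonneg_left h9 (by positivity : (0 : ℝ) ≤ 1 / ((k : ℝ) + 1))
  have h13 : 1 / ((k : ℝ) + 1) * (((k : ℝ) + 1) / ((k : ℝ) + 2) * P.real (Yc x k ⁻¹' B)) =
      1 / ((k : ℝ) + 2) * P.real (Yc x k ⁻¹' B) := by
    field_simp
  linarith

/-- The probability of an interval of length `h`. -/
noncomputable def G (P : Measure Ω) (x : ℕ → Ω → ℝ) (h z : ℝ) : ℝ :=
  P.real (Y x ⁻¹' Set.Icc z (z + h))

/-- The size bias inequality. -/
lemma Terms.bias [IsProbabilityMeasure P] (hx : Terms P x) {h z : ℝ} (hz : 0 ≤ z) :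
    z * G P x h z ≤ ∑' k : ℕ, a k * G P x h (z - 1 / ((k : ℝ) + 2)) := by
  have hG0 : ∀ w, 0 ≤ G P x h w := fun w => measureReal_nonneg
  have hG1 : ∀ w, G P x h w ≤ 1 := fun w => measureReal_le_one
  have hsum : Summable fun k : ℕ => a k * G P x h (z - 1 / ((k : ℝ) + 2)) :=
    Summable.of_nonneg_of_le (fun k => mul_nonneg (a_nonneg k) (hG0 _))
      (fun k => mul_le_of_le_one_right (a_nonneg k) (hG1 _)) summable_a
  set A := Y x ⁻¹' Set.Icc z (z + h) with hA
  have hAm : MeasurableSet A := hx.measurable_Y measurableSet_Icc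
  have h1 : ENNReal.ofReal z * P A ≤ ∑' k : ℕ, ENNReal.ofReal (1 / ((k : ℝ) + 2)) *
      P (x k ⁻¹' {1 / ((k : ℝ) + 2)} ∩ A) := by
    calc ENNReal.ofReal z * P A = ∫⁻ _ in A, ENNReal.ofReal z ∂P := by
          rw [setLIntegral_const]
      _ ≤ ∫⁻ ω in A, ∑' k, ENNReal.ofReal (x k ω) ∂P := by
          refine setLIntegral_mono_ae
            (Measurable.tsum fun k => (hx.measurable k).ennreal_ofReal).aemeasurable ?_
          filter_upwards [hx.ae_summable] with ω hω hωA
          rw [← ENNReal.ofReal_tsum_of_nonneg (fun k => hx.nonneg k ω) hω]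
          exact ENNReal.ofReal_le_ofReal hωA.1
      _ = ∑' k, ∫⁻ ω in A, ENNReal.ofReal (x k ω) ∂P :=
          lintegral_tsum fun k => (hx.measurable k).ennreal_ofReal.aemeasurable
      _ = _ := tsum_congr fun k => hx.setLIntegral k A
  have h2 : ∀ k : ℕ, ENNReal.ofReal (1 / ((k : ℝ) + 2)) *
      P (x k ⁻¹' {1 / ((k : ℝ) + 2)} ∩ A) ≤
      ENNReal.ofReal (a k * G P x h (z - 1 / ((k : ℝ) + 2))) := by
    intro k
    have h3 : P (x k ⁻¹' {1 / ((k : ℝ) + 2)} ∩ A) ≤ P (x k ⁻¹' {1 / ((k : ℝ) + 2)} ∩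
        Yc x k ⁻¹' Set.Icc (z - 1 / ((k : ℝ) + 2)) (z - 1 / ((k : ℝ) + 2) + h)) := by
      refine measure_mono_ae ?_
      filter_upwards [hx.split k] with ω hω
      rintro ⟨h4, h5⟩
      have h6 : x k ω = 1 / ((k : ℝ) + 2) := h4
      have h7 : z ≤ Y x ω := h5.1
      have h8 : Y x ω ≤ z + h := h5.2
      rw [hω, h6] at h7 h8
      exact ⟨h4, by constructor <;> linarith⟩
    have h9 := (mul_le_mul_right (h3.trans (hx.key k measurableSet_Icc))
      (ENNReal.ofReal (1 / ((k : ℝ) + 2))))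
    refine h9.trans ?_
    rw [← ENNReal.ofReal_mul (by positivity)]
    apply ENNReal.ofReal_le_ofReal
    unfold G a
    apply le_of_eq
    field_simp
  have h3 := h1.trans (ENNReal.tsum_le_tsum h2)
  rw [← ENNReal.ofReal_tsum_of_nonneg (fun k => mul_nonneg (a_nonneg k) (hG0 _)) hsum,
    ← ENNReal.ofReal_toReal (measure_ne_top P A), ← ENNReal.ofReal_mul hz] at h3
  exact (ENNReal.ofReal_le_ofReal_iff (tsum_nonneg fun k =>
    mul_nonneg (a_nonneg k) (hG0 _))).1 h3

lemma prod_eq (n : ℕ) : ∏ k ∈ Finset.range n, (1 - 1 / ((k : ℝ) + 2)) = 1 / ((n : ℝ) + 1) := by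
  induction n with
  | zero => simp
  | succ n ih =>
    rw [Finset.prod_range_succ, ih]
    push_cast
    field_simp
    ring

lemma Terms.small [IsProbabilityMeasure P] (hx : Terms P x) {h z : ℝ} (hh : 0 < h)
    (hh2 : h ≤ 1 / 2) (hz : z < h) : G P x h z ≤ 4 * h := by
  set N := ⌊1 / (2 * h)⌋₊ with hN
  have hu : 1 ≤ 1 / (2 * h) := by
    rw [le_div_iff₀ (by positivity)]
    linarith
  have hN1 : 1 ≤ N := (Nat.one_le_floor_iff _).2 hu
  have hN2 : (N : ℝ) ≤ 1 / (2 * h) := Nat.floor_le (by positivity)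
  have hN3 : 1 / (2 * h) < N + 1 := Nat.lt_floor_add_one _
  have h1 : P (Y x ⁻¹' Set.Icc z (z + h)) ≤
      P (⋂ k ∈ Finset.range (N - 1), x k ⁻¹' {1 / ((k : ℝ) + 2)}ᶜ) := by
    refine measure_mono_ae ?_
    filter_upwards [hx.ae_summable] with ω hω
    rintro ⟨_, h3⟩
    have h4 : Y x ω < 2 * h := by
      have : Y x ω ≤ z + h := h3
      linarith
    change ω ∈ ⋂ k ∈ Finset.range (N - 1), x k ⁻¹' {1 / ((k : ℝ) + 2)}ᶜ
    simp only [Set.mem_iInter, Finset.mem_range]
    intro k hk h5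
    have h6 : x k ω = 1 / ((k : ℝ) + 2) := h5
    have h7 : x k ω ≤ Y x ω := hω.le_tsum k fun j _ => hx.nonneg j ω
    have h8 : ((k : ℝ) + 2) ≤ N := by
      have : k + 2 ≤ N := by omega
      exact_mod_cast this
    have h9 : 2 * h ≤ 1 / ((k : ℝ) + 2) := by
      rw [le_div_iff₀ (by positivity)]
      have := h8.trans hN2
      rw [le_div_iff₀ (by positivity)] at this
      linarith
    linarith
  have h2 := hx.indep.measure_inter_preimage_eq_mul (Finset.range (N - 1))
    (sets := fun k => {1 / ((k : ℝ) + 2)}ᶜ) (fun k _ => (measurableSet_singleton _).compl)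
  have h3 : G P x h z ≤ ∏ k ∈ Finset.range (N - 1), (1 - 1 / ((k : ℝ) + 2)) := by
    unfold G
    have h4 := ENNReal.toReal_mono (measure_ne_top _ _) h1
    rw [h2, ENNReal.toReal_prod] at h4
    refine h4.trans (le_of_eq (Finset.prod_congr rfl fun k _ => ?_))
    have hE : MeasurableSet (x k ⁻¹' {1 / ((k : ℝ) + 2)}) :=
      hx.measurable k (measurableSet_singleton _)
    have h7 : P.real (x k ⁻¹' {1 / ((k : ℝ) + 2)}) = 1 / ((k : ℝ) + 2) := by
      rw [measureReal_def, hx.prob, ENNReal.toReal_ofReal (by positivity)]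
    have h8 : P.real (x k ⁻¹' {1 / ((k : ℝ) + 2)}ᶜ) = 1 - 1 / ((k : ℝ) + 2) := by
      rw [Set.preimage_compl, probReal_compl_eq_one_sub hE, h7]
    exact h8
  rw [prod_eq] at h3
  have h5 : (((N - 1 : ℕ) : ℝ) + 1) = N := by
    have : N - 1 + 1 = N := by omega
    exact_mod_cast this
  rw [h5] at h3
  refine h3.trans ?_
  have h6 : (1 : ℝ) ≤ N := by exact_mod_cast hN1
  rw [div_le_iff₀ (by linarith)]
  rw [div_lt_iff₀ (by positivity)] at hN3
  nlinarith

lemma Terms.sizeBias [IsProbabilityMeasure P] (hx : Terms P x) {h : ℝ} (hh : 0 < h)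
    (hh2 : h ≤ 1 / 2) : SizeBias (G P x h) h where
  nonneg _ := measureReal_nonneg
  le_one _ := measureReal_le_one
  eq_zero z hz := by
    unfold G
    have h1 : Y x ⁻¹' Set.Icc z (z + h) = ∅ := by
      ext ω
      simp only [Set.mem_preimage, Set.mem_Icc, Set.mem_empty_iff_false, iff_false]
      rintro ⟨_, h2⟩
      have h3 : 0 ≤ Y x ω := tsum_nonneg fun k => hx.nonneg k ω
      linarith
    rw [h1]
    simp
  bias _ hz := hx.bias hz
  small _ hz := hx.small hh hh2 hz

lemma eight_le_K : 8 ≤ K := by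
  unfold K
  have : (1 : ℝ) ≤ Real.exp 20 := Real.one_le_exp (by norm_num)
  nlinarith

lemma Terms.interval [IsProbabilityMeasure P] (hx : Terms P x) (c : ℝ) {h : ℝ} (hh : 0 < h) :
    P (Y x ⁻¹' Set.Icc c (c + h)) ≤ ENNReal.ofReal (K * h) := by
  rw [← ENNReal.ofReal_toReal (measure_ne_top P (Y x ⁻¹' Set.Icc c (c + h)))]
  apply ENNReal.ofReal_le_ofReal
  change G P x h c ≤ K * h
  rcases le_or_gt h (1 / 8) with h1 | h1
  · exact (hx.sizeBias hh (by linarith)).bound hh h1 c
  · have h2 : G P x h c ≤ 1 := measureReal_le_one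
    have := eight_le_K
    nlinarith

end Prob

/-- From intervals to Borel sets. -/
lemma le_volume {μ : Measure ℝ} {C : ℝ} (hC : 0 < C)
    (h : ∀ a b, a ≤ b → μ (Set.Ioc a b) ≤ ENNReal.ofReal (C * (b - a))) (A : Set ℝ) :
    μ A ≤ ENNReal.ofReal C * volume A := by
  have hC0 : ENNReal.ofReal C ≠ 0 := (ENNReal.ofReal_pos.2 hC).ne'
  have h1 : ∀ s, ((ENNReal.ofReal C)⁻¹ • μ).toOuterMeasure s ≤
      StieltjesFunction.id.length s := by
    intro s
    rw [StieltjesFunction.length_eq]
    refine le_iInf fun a => le_iInf fun b => le_iInf fun hs => ?_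
    have hs' : s ⊆ Set.Ioc a b := by
      intro y hy
      refine hs ⟨hy, fun hbot => ?_⟩
      have := hbot (y - 1)
      linarith
    rcases lt_or_ge b a with hab | hab
    · have : s = ∅ := Set.subset_empty_iff.1 (by rwa [Set.Ioc_eq_empty (by linarith)] at hs')
      rw [this]
      simp
    · change (ENNReal.ofReal C)⁻¹ * μ s ≤ _
      rw [ENNReal.inv_mul_le_iff hC0 ENNReal.ofReal_ne_top]
      refine (measure_mono hs').trans ((h a b hab).trans ?_)
      rw [ENNReal.ofReal_mul hC.le]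
      rfl
  have h2 : ((ENNReal.ofReal C)⁻¹ • μ).toOuterMeasure ≤ StieltjesFunction.id.outer :=
    OuterMeasure.le_ofFunction.2 h1
  have h3 := h2 A
  rw [Real.volume_eq_stieltjes_id, StieltjesFunction.measure_def]
  change (ENNReal.ofReal C)⁻¹ * μ A ≤ _ at h3
  rw [ENNReal.inv_mul_le_iff hC0 ENNReal.ofReal_ne_top] at h3
  exact h3

section Final

variable {Ω : Type*} [MeasurableSpace Ω] {P : Measure Ω} {I : ℕ → Ω → ℝ}

/-- The terms of the series, corrected on a null set. -/
noncomputable def trm (I : ℕ → Ω → ℝ) (k : ℕ) (ω : Ω) : ℝ :=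
  if I (k + 1) ω = 1 then 1 / ((k : ℝ) + 2) else 0

lemma RecordIndicators.terms (hI : RecordIndicators P I) : Terms P (trm I) where
  measurable k := Measurable.ite (hI.measurable (k + 1) (measurableSet_singleton 1))
    measurable_const measurable_const
  indep := by
    have h1 : iIndepFun (fun k => I (k + 1)) P :=
      hI.indep.precomp (g := fun k : ℕ => k + 1) (add_left_injective 1)
    exact h1.comp (fun (k : ℕ) (t : ℝ) => if t = 1 then 1 / ((k : ℝ) + 2) else 0)
      (fun k => Measurable.ite (measurableSet_singleton 1) measurable_const measurable_const)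
  values k ω := by
    unfold trm
    split_ifs
    · exact Or.inr rfl
    · exact Or.inl rfl
  prob k := by
    have h1 : trm I k ⁻¹' {1 / ((k : ℝ) + 2)} = {ω | I (k + 1) ω = 1} := by
      ext ω
      simp only [trm, Set.mem_preimage, Set.mem_singleton_iff, Set.mem_ofPred_eq]
      split_ifs with h
      · simp [h]
      · have : (0 : ℝ) ≠ 1 / ((k : ℝ) + 2) := by positivity
        simp only [this, h]
    rw [h1, hI.prob_one]
    push_cast
    ring_nf

lemma RecordIndicators.ae [IsProbabilityMeasure P] (hI : RecordIndicators P I) :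
    ∀ᵐ ω ∂P, (Summable fun n : ℕ => I n ω / (n + 1)) ∧ recordSum I ω = 1 + Y (trm I) ω := by
  have h0 : ∀ᵐ ω ∂P, I 0 ω = 1 := by
    have h1 := hI.prob_one 0
    rw [Nat.cast_zero, zero_add, div_one, ENNReal.ofReal_one] at h1
    exact (prob_compl_eq_zero_iff (hI.measurable 0 (measurableSet_singleton 1))).2 h1
  filter_upwards [h0, ae_all_iff.2 hI.zero_or_one, hI.terms.ae_summable] with ω hω0 hω hs
  have h2 : ∀ k : ℕ, I (k + 1) ω / (((k + 1 : ℕ) : ℝ) + 1) = trm I k ω := by
    intro k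
    have h3 : (((k + 1 : ℕ) : ℝ) + 1) = (k : ℝ) + 2 := by push_cast; ring
    rw [h3]
    unfold trm
    rcases hω (k + 1) with h | h
    · rw [h, if_neg (by norm_num), zero_div]
    · rw [h, if_pos rfl]
  have h3 : Summable fun k : ℕ => I (k + 1) ω / (((k + 1 : ℕ) : ℝ) + 1) :=
    hs.congr fun k => (h2 k).symm
  have h4 : Summable fun n : ℕ => I n ω / (n + 1) :=
    (summable_nat_add_iff (f := fun n : ℕ => I n ω / (n + 1)) 1).1 h3
  refine ⟨h4, ?_⟩
  unfold recordSum Y
  rw [h4.tsum_eq_zero_add, hω0]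
  simp only [Nat.cast_zero, zero_add, div_one]
  rw [tsum_congr h2]

end Final

/-- **The record random harmonic series has a bounded density.** There is a constant `C` such that
for every sequence `I` of independent indicators with `P (Iₙ = 1) = 1 / n` (on any probability
space) the series `S = ∑ Iₙ / n` converges almost surely, its law `μ` satisfies
`μ A ≤ C λ A` for every Borel set `A`, `μ` is absolutely continuous, and its density
`dμ / dλ` is almost everywhere at most `C`. -/
theorem result : ∃ C : ℝ≥0, ∀ (Ω : Type*) [MeasurableSpace Ω] (P : Measure Ω)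
    [IsProbabilityMeasure P] (I : ℕ → Ω → ℝ), RecordIndicators P I →
    (∀ᵐ ω ∂P, Summable fun n : ℕ => I n ω / (n + 1)) ∧
    AEMeasurable (recordSum I) P ∧
    (∀ A : Set ℝ, MeasurableSet A → P.map (recordSum I) A ≤ C * volume A) ∧
    P.map (recordSum I) ≪ volume ∧
    ∀ᵐ t ∂(volume : Measure ℝ), (P.map (recordSum I)).rnDeriv volume t ≤ C := by
  refine ⟨K.toNNReal, fun Ω _ P _ I hI => ?_⟩
  have hK : ENNReal.ofReal K = (K.toNNReal : ℝ≥0∞) := rfl
  have hae := hI.ae
  have hmeas : AEMeasurable (recordSum I) P :=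
    ⟨fun ω => 1 + Y (trm I) ω, measurable_const.add hI.terms.measurable_Y,
      hae.mono fun ω h => h.2⟩
  have hmap : P.map (recordSum I) = P.map (fun ω => 1 + Y (trm I) ω) :=
    Measure.map_congr (hae.mono fun ω h => h.2)
  have hle : ∀ A : Set ℝ, P.map (recordSum I) A ≤ K.toNNReal * volume A := by
    intro A
    rw [← hK]
    refine le_volume K_pos (fun c d hcd => ?_) A
    rcases hcd.eq_or_lt with h | h
    · rw [h, Set.Ioc_self]
      simp
    · have hm1 : Measurable fun ω => 1 + Y (trm I) ω :=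
        measurable_const.add hI.terms.measurable_Y
      rw [hmap, Measure.map_apply hm1 measurableSet_Ioc]
      have h1 := hI.terms.interval (c - 1) (sub_pos.2 h)
      refine (measure_mono fun ω hω => ?_).trans h1
      have h2 : c < 1 + Y (trm I) ω := hω.1
      have h3 : 1 + Y (trm I) ω ≤ d := hω.2
      exact ⟨by linarith, by linarith⟩
  have hle' : P.map (recordSum I) ≤ (K.toNNReal : ℝ≥0∞) • (volume : Measure ℝ) :=
    Measure.le_iff.2 fun A _ => hle A
  have hac : P.map (recordSum I) ≪ volume := by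
    refine Measure.AbsolutelyContinuous.mk fun A _ h0 => ?_
    have := hle A
    rw [h0, mul_zero] at this
    exact le_antisymm this bot_le
  refine ⟨hae.mono fun ω h => h.1, hmeas, fun A _ => hle A, hac, ?_⟩
  have := Measure.isProbabilityMeasure_map hmeas
  refine ae_le_of_forall_setLIntegral_le_of_sigmaFinite₀
    (Measure.measurable_rnDeriv _ _).aemeasurable fun A hA _ => ?_
  rw [setLIntegral_const]
  exact (Measure.setLIntegral_rnDeriv_le A).trans (hle A)

end Pool.Agent.Results.MP_5a22fd_pr.BoundedDensity
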